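import Mathlib

open Set Filter Topology

namespace Pool.Agent.Results.MP_861931_gt.FiniteToOne

/-- A finite-to-one mapping: a continuous function all of whose fibres are finite. -/
def FinToOne {X Y : Type*} [TopologicalSpace X] [TopologicalSpace Y] (f : X → Y) : Prop :=
  Continuous f ∧ ∀ y, (f ⁻¹' {y}).Finite

/-- `X` is homogeneous with respect to the class of finite-to-one mappings: for all points `a`, `b`
there is a finite-to-one mapping of `X` onto `X` taking `a` to `b`. -/
def FinHomogeneous (X : Type*) [TopologicalSpace X] : Prop :=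
  ∀ a b : X, ∃ f : X → X, FinToOne f ∧ Function.Surjective f ∧ f a = b

/-- `X` is homogeneous: for all points `a`, `b` there is a homeomorphism of `X` onto `X` taking
`a` to `b`. -/
def Homogeneous (X : Type*) [TopologicalSpace X] : Prop :=
  ∀ a b : X, ∃ h : X ≃ₜ X, h a = b

/-- `Y` is equivalent to `X` with respect to the class of finite-to-one mappings: there are
finite-to-one mappings of `X` onto `Y` and of `Y` onto `X`. -/
def FinEquivalent (X Y : Type*) [TopologicalSpace X] [TopologicalSpace Y] : Prop :=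
  (∃ f : X → Y, FinToOne f ∧ Function.Surjective f) ∧
    (∃ g : Y → X, FinToOne g ∧ Function.Surjective g)

/-! ### The abstract obstruction -/

/-- The branching property of a point `z`. -/
def Branch {Y : Type*} [TopologicalSpace Y] (z : Y) : Prop :=
  ∃ (F : Set Y) (V : ℕ → Set Y) (N : Set ℕ), F.Finite ∧ N.Infinite ∧ (∀ n, IsOpen (V n)) ∧
    (∀ n, IsClosed (V n ∪ F)) ∧
    Pairwise (fun m n => Disjoint (V m) (V n)) ∧ (∀ n, Disjoint (V n) F) ∧
    ∀ n ∈ N, z ∈ closure (V n)

theorem Branch.map {Y : Type*} [TopologicalSpace Y] {z : Y} (h : Y ≃ₜ Y) (hz : Branch z) :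
    Branch (h z) := by
  obtain ⟨F, V, N, hF, hN, ho, hc, hd, hdF, hcl⟩ := hz
  refine ⟨h '' F, fun n => h '' V n, N, hF.image _, hN, fun n => h.isOpenMap _ (ho n),
    fun n => ?_, ?_, fun n => ?_, fun n hn => ?_⟩
  · rw [← image_union]
    exact h.isClosedMap _ (hc n)
  · intro m n hmn
    exact (disjoint_image_iff h.injective).2 (hd hmn)
  · exact (disjoint_image_iff h.injective).2 (hdF n)
  · rw [← h.image_closure]
    exact mem_image_of_mem _ (hcl n hn)

/-- The tameness property of a point `x`: small punctured neighbourhoods are covered by two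
connected sets. -/
def Tame {X : Type*} [TopologicalSpace X] (x : X) : Prop :=
  ∀ G : Set X, IsOpen G → x ∈ G → ∃ (O : Set X) (K : Bool → Set X), IsOpen O ∧ x ∈ O ∧
    (∀ i, IsPreconnected (K i)) ∧ (∀ i, K i ⊆ G \ {x}) ∧ O \ {x} ⊆ ⋃ i, K i

theorem exists_infinite_of_forall_mem {α : Type*} {S : Set α} (hS : S.Finite) {p : ℕ → α → Prop}
    {N : Set ℕ} (hN : N.Infinite) (h : ∀ n ∈ N, ∃ x ∈ S, p n x) :
    ∃ x ∈ S, {n ∈ N | p n x}.Infinite := by
  by_contra hcon
  push Not at hcon
  apply hN
  have : N ⊆ ⋃ x ∈ S, {n ∈ N | p n x} := by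
    intro n hn
    obtain ⟨x, hx, hp⟩ := h n hn
    simp only [mem_iUnion]
    exact ⟨x, hx, hn, hp⟩
  refine (hS.biUnion fun x hx => ?_).subset this
  exact hcon x hx

theorem not_branch_of_tame {X : Type*} [TopologicalSpace X] {x : X} (hx : Tame x) {E : Set X}
    {U : ℕ → Set X} (hE : E.Finite) (hT : T1Space X)
    (ho : ∀ n, IsOpen (U n)) (hc : ∀ n, IsClosed (U n ∪ E))
    (hd : Pairwise (fun m n => Disjoint (U m) (U n))) (hdE : ∀ n, Disjoint (U n) E)
    (hxE : x ∈ E) {N : Set ℕ} (hN : N.Infinite) (hcl : ∀ n ∈ N, x ∈ closure (U n)) : False := by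
  obtain ⟨O, K, hO, hxO, hK, hKG, hcov⟩ := hx (E \ {x})ᶜ
    ((hE.subset sdiff_subset).isClosed.isOpen_compl) (by simp)
  have h1 : ∀ n ∈ N, ∃ i ∈ (univ : Set Bool), (U n ∩ K i).Nonempty := by
    intro n hn
    obtain ⟨y, hyO, hyU⟩ := mem_closure_iff.1 (hcl n hn) O hO hxO
    have hyx : y ≠ x := by
      rintro rfl
      exact (Set.disjoint_left.1 (hdE n)) hyU hxE
    obtain ⟨i, hi⟩ := mem_iUnion.1 (hcov ⟨hyO, hyx⟩)
    exact ⟨i, mem_univ _, y, hyU, hi⟩
  obtain ⟨i, -, hi⟩ := exists_infinite_of_forall_mem (finite_univ) hN h1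
  have hsub : ∀ n, (U n ∩ K i).Nonempty → K i ⊆ U n := by
    intro n hn
    refine (hK i).subset_left_of_subset_union (ho n) (hc n).isOpen_compl ?_ ?_ ?_
    · rw [Set.disjoint_compl_right_iff_subset]
      exact subset_union_left
    · intro y hy
      by_cases hyU : y ∈ U n
      · exact Or.inl hyU
      · right
        have hyE : y ∉ E := by
          intro hyE
          have := hKG i hy
          exact this.1 ⟨hyE, this.2⟩
        simp [hyU, hyE]
    · rw [inter_comm]
      exact hn
  obtain ⟨m, hm⟩ := hi.nonempty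
  obtain ⟨n, hn, hmn⟩ := hi.exists_gt m
  obtain ⟨y, hyU, hyK⟩ := hm.2
  have hyU' : y ∈ U n := hsub n hn.2 hyK
  exact (Set.disjoint_left.1 (hd hmn.ne)) hyU hyU'

/-- The obstruction. -/
theorem not_equivalent {X : Type*} [MetricSpace X] [CompactSpace X]
    (hunc : ¬ (univ : Set X).Countable)
    {D : Set X} (hD : D.Countable) (htame : ∀ x ∉ D, Tame x)
    {d : X} {C : ℕ → Set X} (hne : ∀ n, (C n).Nonempty) (hC : ∀ n, IsOpen (C n))
    (hCc : ∀ n, IsClosed (C n ∪ {d})) (hdisj : Pairwise (fun m n => Disjoint (C m) (C n)))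
    (hdC : ∀ n, d ∉ C n)
    {Y : Type*} [MetricSpace Y] [ConnectedSpace Y] (hY : Homogeneous Y)
    {f : X → Y} (hf : FinToOne f) (hfs : Function.Surjective f)
    {g : Y → X} (hg : FinToOne g) (hgs : Function.Surjective g) : False := by
  -- a branch point of `Y`
  have hbr : ∃ z : Y, Branch z := by
    set F := g ⁻¹' {d} with hF
    have hFfin : F.Finite := hg.2 d
    have hFne : F.Nonempty := by
      obtain ⟨y, hy⟩ := hgs d
      exact ⟨y, hy⟩
    set V : ℕ → Set Y := fun n => g ⁻¹' (C n) with hV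
    have hVo : ∀ n, IsOpen (V n) := fun n => (hC n).preimage hg.1
    have hVc : ∀ n, IsClosed (V n ∪ F) := fun n => by
      have := (hCc n).preimage hg.1
      rwa [preimage_union] at this
    have hVF : ∀ n, Disjoint (V n) F := fun n => by
      rw [Set.disjoint_left]
      intro y hy hy'
      exact hdC n (by
        have h1 : g y ∈ C n := hy
        have h2 : g y = d := hy'
        rwa [h2] at h1)
    have hVd : Pairwise (fun m n => Disjoint (V m) (V n)) := fun m n hmn =>
      (hdisj hmn).preimage g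
    have hVne : ∀ n, (V n).Nonempty := fun n => by
      obtain ⟨x, hx⟩ := hne n
      obtain ⟨y, rfl⟩ := hgs x
      exact ⟨y, hx⟩
    have key : ∀ n ∈ (univ : Set ℕ), ∃ z ∈ F, z ∈ closure (V n) := by
      intro n _
      by_contra hcon
      push Not at hcon
      have hclV : closure (V n) ⊆ V n := by
        intro y hy
        have : y ∈ V n ∪ F := (closure_minimal subset_union_left (hVc n)) hy
        rcases this with h | h
        · exact h
        · exact absurd hy (hcon y h)
      have hclopen : IsClopen (V n) := ⟨isClosed_of_closure_subset hclV, hVo n⟩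
      rcases isClopen_iff.1 hclopen with h | h
      · exact (hVne n).ne_empty h
      · obtain ⟨y, hy⟩ := hFne
        exact (Set.disjoint_left.1 (hVF n)) (h ▸ mem_univ y) hy
    obtain ⟨z, hzF, hz⟩ := exists_infinite_of_forall_mem hFfin infinite_univ key
    exact ⟨z, F, V, _, hFfin, hz, hVo, hVc, hVd, hVF, fun n hn => hn.2⟩
  obtain ⟨z, hz⟩ := hbr
  -- a point of `Y` outside the image of `D`
  obtain ⟨y, hy⟩ : ∃ y : Y, y ∉ f '' D := by
    by_contra hcon
    push Not at hcon
    apply hunc
    have h1 : (univ : Set Y).Countable := (hD.image f).mono (fun y _ => hcon y)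
    have h2 : g '' univ = univ := by
      rw [image_univ]
      exact hgs.range_eq
    rw [← h2]
    exact h1.image g
  obtain ⟨h, hh⟩ := hY z y
  have hyB : Branch y := hh ▸ hz.map h
  obtain ⟨F, V, N, hF, hN, ho, hc, hd, hdF, hcl⟩ := hyB
  have hyF : y ∈ F := by
    obtain ⟨m, hm⟩ := hN.nonempty
    obtain ⟨n, hn, hmn⟩ := hN.exists_gt m
    have h1 : y ∈ V m ∪ F := closure_minimal subset_union_left (hc m) (hcl m hm)
    have h2 : y ∈ V n ∪ F := closure_minimal subset_union_left (hc n) (hcl n hn)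
    rcases h1 with h1 | h1
    · rcases h2 with h2 | h2
      · exact absurd h2 (Set.disjoint_left.1 (hd hmn.ne) h1)
      · exact h2
    · exact h1
  have key : ∀ n ∈ N, ∃ x ∈ f ⁻¹' {y}, x ∈ closure (f ⁻¹' V n) := by
    intro n hn
    have h1 : f '' (f ⁻¹' V n) = V n := image_preimage_eq _ hfs
    have h2 : f '' closure (f ⁻¹' V n) = closure (V n) := by
      rw [← hf.1.isClosedMap.closure_image_eq_of_continuous hf.1, h1]
    have h3 : y ∈ f '' closure (f ⁻¹' V n) := by
      rw [h2]
      exact hcl n hn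
    obtain ⟨x, hx, hxy⟩ := h3
    exact ⟨x, hxy, hx⟩
  obtain ⟨x, hxy, hx⟩ := exists_infinite_of_forall_mem (hf.2 y) hN key
  have hxD : x ∉ D := fun h => hy ⟨x, h, hxy⟩
  refine not_branch_of_tame (htame x hxD) (E := f ⁻¹' F) (U := fun n => f ⁻¹' V n) ?_ inferInstance
    (fun n => (ho n).preimage hf.1) (fun n => ?_) (fun m n hmn => (hd hmn).preimage f)
    (fun n => (hdF n).preimage f) ?_ hx (fun n hn => hn.2)
  · exact hF.preimage' fun b _ => hf.2 b
  · rw [← preimage_union]
    exact (hc n).preimage hf.1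
  · have : f x = y := hxy
    show f x ∈ F
    rwa [this]

/-! ### The space -/

/-- The left end points of the gaps of the Cantor set. -/
noncomputable def gapL : List Bool → ℝ
  | [] => 1 / 3
  | false :: w => gapL w / 3
  | true :: w => (gapL w + 2) / 3

/-- The lengths of the gaps. -/
noncomputable def gapS (w : List Bool) : ℝ := (1 / 3) ^ (w.length + 1)

/-- The comb. -/
def comb : Set (ℝ × ℝ) :=
  {p | 0 ≤ p.1 ∧ p.1 ≤ 1 ∧ (p.2 = 0 ∨ ∃ (w : List Bool) (n : ℕ),
    gapL w < p.1 ∧ p.1 ≤ gapL w + gapS w / 2 ^ (n + 1) ∧ (n + 1) * p.2 = p.1 - gapL w)}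

theorem gapS_pos (w : List Bool) : 0 < gapS w := by unfold gapS; positivity

theorem gapS_cons (i : Bool) (w : List Bool) : gapS (i :: w) = gapS w / 3 := by
  unfold gapS
  rw [List.length_cons, pow_succ]
  ring

theorem gapL_pos (w : List Bool) : 0 < gapL w := by
  induction w with
  | nil => norm_num [gapL]
  | cons i w ih => cases i <;> simp only [gapL] <;> linarith

theorem gapL_add_lt (w : List Bool) : gapL w + gapS w < 1 := by
  induction w with
  | nil => norm_num [gapL, gapS]
  | cons i w ih =>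
    rw [gapS_cons]
    cases i <;> simp only [gapL] <;> linarith [gapS_pos w]

/-- `t` lies in the (half-open) gap `w`. -/
def Gap (w : List Bool) (t : ℝ) : Prop := gapL w ≤ t ∧ t < gapL w + gapS w

theorem Gap.pos {w : List Bool} {t : ℝ} (h : Gap w t) : 0 < t :=
  lt_of_lt_of_le (gapL_pos w) h.1

theorem Gap.lt_one {w : List Bool} {t : ℝ} (h : Gap w t) : t < 1 :=
  lt_trans h.2 (gapL_add_lt w)

theorem gap_false {w : List Bool} {t : ℝ} : Gap (false :: w) t ↔ Gap w (3 * t) := by
  unfold Gap
  rw [gapS_cons]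
  simp only [gapL]
  constructor
  · rintro ⟨h1, h2⟩
    constructor <;> linarith
  · rintro ⟨h1, h2⟩
    constructor <;> linarith

theorem gap_true {w : List Bool} {t : ℝ} : Gap (true :: w) t ↔ Gap w (3 * t - 2) := by
  unfold Gap
  rw [gapS_cons]
  simp only [gapL]
  constructor
  · rintro ⟨h1, h2⟩
    constructor <;> linarith
  · rintro ⟨h1, h2⟩
    constructor <;> linarith

theorem gap_nil {t : ℝ} : Gap [] t ↔ 1 / 3 ≤ t ∧ t < 2 / 3 := by
  unfold Gap
  norm_num [gapL, gapS]

theorem gap_unique : ∀ {w w' : List Bool} {t : ℝ}, Gap w t → Gap w' t → w = w' := by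
  intro w
  induction w with
  | nil =>
    intro w' t h h'
    rw [gap_nil] at h
    match w' with
    | [] => rfl
    | false :: w' =>
      have := (gap_false.1 h').lt_one
      linarith
    | true :: w' =>
      have := (gap_true.1 h').pos
      linarith
  | cons i w ih =>
    intro w' t h h'
    match i, w' with
    | false, [] =>
      rw [gap_nil] at h'
      have := (gap_false.1 h).lt_one
      linarith
    | true, [] =>
      rw [gap_nil] at h'
      have := (gap_true.1 h).pos
      linarith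
    | false, false :: w' => rw [ih (gap_false.1 h) (gap_false.1 h')]
    | true, true :: w' => rw [ih (gap_true.1 h) (gap_true.1 h')]
    | false, true :: w' =>
      have h1 := (gap_false.1 h).lt_one
      have h2 := (gap_true.1 h').pos
      linarith
    | true, false :: w' =>
      have h1 := (gap_false.1 h').lt_one
      have h2 := (gap_true.1 h).pos
      linarith

theorem gap_of_whisker {w : List Bool} {n : ℕ} {t : ℝ} (h1 : gapL w < t)
    (h2 : t ≤ gapL w + gapS w / 2 ^ (n + 1)) : Gap w t := by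
  refine ⟨h1.le, lt_of_le_of_lt h2 ?_⟩
  have h3 : gapS w / 2 ^ (n + 1) < gapS w := by
    rw [div_lt_iff₀ (by positivity)]
    have : (1 : ℝ) < 2 ^ (n + 1) := one_lt_pow₀ (by norm_num) (by omega)
    nlinarith [gapS_pos w]
  linarith

theorem whisker_half {w : List Bool} {n : ℕ} {t : ℝ}
    (h2 : t ≤ gapL w + gapS w / 2 ^ (n + 1)) : t ≤ gapL w + gapS w / 2 := by
  have h3 : gapS w / 2 ^ (n + 1) ≤ gapS w / 2 := by
    apply div_le_div_of_nonneg_left (gapS_pos w).le (by norm_num)
    calc (2 : ℝ) = 2 ^ 1 := by norm_num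
      _ ≤ 2 ^ (n + 1) := pow_le_pow_right₀ (by norm_num) (by omega)
  linarith

theorem comb_nonneg {p : ℝ × ℝ} (h : p ∈ comb) : 0 ≤ p.2 := by
  obtain ⟨-, -, h | ⟨w, n, h1, h2, h3⟩⟩ := h
  · rw [h]
  · by_contra hcon
    push Not at hcon
    have : ((n : ℝ) + 1) * p.2 < 0 := mul_neg_of_pos_of_neg (by positivity) hcon
    linarith

theorem comb_gap_snd {p : ℝ × ℝ} (hp : p ∈ comb) {w : List Bool} (hw : Gap w p.1) :
    p.2 = 0 ∨ ∃ n : ℕ, gapL w < p.1 ∧ p.1 ≤ gapL w + gapS w / 2 ^ (n + 1) ∧
      (n + 1) * p.2 = p.1 - gapL w := by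
  obtain ⟨-, -, h | ⟨w', n, h1, h2, h3⟩⟩ := hp
  · exact Or.inl h
  · obtain rfl := gap_unique hw (gap_of_whisker h1 h2)
    exact Or.inr ⟨n, h1, h2, h3⟩

/-- Over a gap, the height is zero or bounded below. -/
theorem comb_gap_low {p : ℝ × ℝ} (hp : p ∈ comb) {w : List Bool} (hw : Gap w p.1)
    (hlt : p.2 * gapS w < (p.1 - gapL w) ^ 2) : p.2 = 0 := by
  rcases comb_gap_snd hp hw with h | ⟨n, h1, h2, h3⟩
  · exact h
  · exfalso
    have hn : ((n : ℝ) + 1) * (p.1 - gapL w) ≤ gapS w := by
      have h4 : (p.1 - gapL w) * 2 ^ (n + 1) ≤ gapS w := by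
        rw [← le_div_iff₀ (by positivity)]
        linarith
      have h5 : ((n : ℝ) + 1) ≤ 2 ^ (n + 1) := by
        have := Nat.lt_two_pow_self (n := n + 1)
        have h6 : ((n + 1 : ℕ) : ℝ) ≤ ((2 ^ (n + 1) : ℕ) : ℝ) := by exact_mod_cast this.le
        push_cast at h6
        exact h6
      have h7 : 0 < p.1 - gapL w := by linarith
      nlinarith
    have h8 : 0 ≤ p.2 := comb_nonneg hp
    have h9 : 0 < p.1 - gapL w := by linarith
    have h10 : (p.1 - gapL w) ^ 2 ≤ p.2 * gapS w := by
      have : (p.1 - gapL w) ^ 2 = p.2 * (((n : ℝ) + 1) * (p.1 - gapL w)) := by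
        rw [sq]
        nth_rw 1 [← h3]
        ring
      rw [this]
      exact mul_le_mul_of_nonneg_left hn h8
    linarith

theorem spine_mem {t : ℝ} (h0 : 0 ≤ t) (h1 : t ≤ 1) : ((t, 0) : ℝ × ℝ) ∈ comb :=
  ⟨h0, h1, Or.inl rfl⟩

theorem snd_eq_zero_of_not_gap {p : ℝ × ℝ} (hp : p ∈ comb) (h : ∀ w, ¬ Gap w p.1) : p.2 = 0 := by
  obtain ⟨-, -, h' | ⟨w', n, h1, h2, h3⟩⟩ := hp
  · exact h'
  · exact absurd (gap_of_whisker h1 h2) (h w')

/-! ### Self-similarity -/

theorem scale0 {p : ℝ × ℝ} (hp : p ∈ comb) : (p.1 / 3, p.2 / 3) ∈ comb := by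
  obtain ⟨h0, h1, h⟩ := hp
  refine ⟨by simp only; linarith, by simp only; linarith, ?_⟩
  rcases h with h | ⟨w, n, h2, h3, h4⟩
  · left
    simp only [h]
    norm_num
  · right
    refine ⟨false :: w, n, ?_, ?_, ?_⟩
    · simp only [gapL]; linarith
    · rw [gapS_cons]
      simp only [gapL]
      have : gapS w / 3 / 2 ^ (n + 1) = gapS w / 2 ^ (n + 1) / 3 := by ring
      rw [this]
      linarith
    · simp only [gapL]
      linarith

theorem scale1 {p : ℝ × ℝ} (hp : p ∈ comb) : ((p.1 + 2) / 3, p.2 / 3) ∈ comb := by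
  obtain ⟨h0, h1, h⟩ := hp
  refine ⟨by simp only; linarith, by simp only; linarith, ?_⟩
  rcases h with h | ⟨w, n, h2, h3, h4⟩
  · left
    simp only [h]
    norm_num
  · right
    refine ⟨true :: w, n, ?_, ?_, ?_⟩
    · simp only [gapL]; linarith
    · rw [gapS_cons]
      simp only [gapL]
      have : gapS w / 3 / 2 ^ (n + 1) = gapS w / 2 ^ (n + 1) / 3 := by ring
      rw [this]
      linarith
    · simp only [gapL]
      linarith

theorem unscale0 {p : ℝ × ℝ} (hp : p ∈ comb) (hle : p.1 ≤ 1 / 3) : (3 * p.1, 3 * p.2) ∈ comb := by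
  obtain ⟨h0, h1, h⟩ := hp
  refine ⟨by simp only; linarith, by simp only; linarith, ?_⟩
  rcases h with h | ⟨w, n, h2, h3, h4⟩
  · left
    simp only [h]
    norm_num
  · right
    match w with
    | [] =>
      simp only [gapL] at h2
      linarith
    | true :: w =>
      simp only [gapL] at h2
      linarith [gapL_pos w]
    | false :: w =>
      rw [gapS_cons] at h3
      simp only [gapL] at h2 h3 h4
      have : gapS w / 3 / 2 ^ (n + 1) = gapS w / 2 ^ (n + 1) / 3 := by ring
      rw [this] at h3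
      refine ⟨w, n, ?_, ?_, ?_⟩
      · simp only; linarith
      · simp only; linarith
      · simp only; linarith

theorem unscale1 {p : ℝ × ℝ} (hp : p ∈ comb) (hle : 2 / 3 ≤ p.1) :
    (3 * p.1 - 2, 3 * p.2) ∈ comb := by
  obtain ⟨h0, h1, h⟩ := hp
  refine ⟨by simp only; linarith, by simp only; linarith, ?_⟩
  rcases h with h | ⟨w, n, h2, h3, h4⟩
  · left
    simp only [h]
    norm_num
  · right
    match w with
    | [] =>
      have h5 := whisker_half h3
      norm_num [gapL, gapS] at h5
      linarith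
    | false :: w =>
      have h5 := (gap_false.1 (gap_of_whisker h2 h3)).lt_one
      linarith
    | true :: w =>
      rw [gapS_cons] at h3
      simp only [gapL] at h2 h3 h4
      have : gapS w / 3 / 2 ^ (n + 1) = gapS w / 2 ^ (n + 1) / 3 := by ring
      rw [this] at h3
      refine ⟨w, n, ?_, ?_, ?_⟩
      · simp only; linarith
      · simp only; linarith
      · simp only; linarith

/-! ### Vertical fibres are finite -/

theorem finite_fibre (t : ℝ) : {p : ℝ × ℝ | p ∈ comb ∧ p.1 = t}.Finite := by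
  by_cases h : ∃ w, Gap w t
  · obtain ⟨w, hw⟩ := h
    by_cases ht : t = gapL w
    · refine (Set.finite_singleton ((t, 0) : ℝ × ℝ)).subset ?_
      rintro ⟨a, b⟩ ⟨hp, rfl⟩
      rcases comb_gap_snd hp hw with h | ⟨n, h1, h2, h3⟩
      · simp only [mem_singleton_iff, Prod.mk.injEq, true_and]
        exact h
      · simp only at h1
        linarith
    · have hpos : 0 < t - gapL w := by
        have := lt_of_le_of_ne hw.1 (Ne.symm ht)
        linarith
      obtain ⟨N, hN⟩ := exists_nat_gt (gapS w / (t - gapL w))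
      refine (((Set.finite_lt_nat N).image
        (fun n : ℕ => ((t, (t - gapL w) / (n + 1)) : ℝ × ℝ))).union
        (Set.finite_singleton ((t, 0) : ℝ × ℝ))).subset ?_
      rintro ⟨a, b⟩ ⟨hp, rfl⟩
      rcases comb_gap_snd hp hw with h | ⟨n, h1, h2, h3⟩
      · right
        simp only [mem_singleton_iff, Prod.mk.injEq, true_and]
        exact h
      · left
        simp only at h1 h2 h3
        refine ⟨n, ?_, ?_⟩
        · have h4 : (a - gapL w) * 2 ^ (n + 1) ≤ gapS w := by
            rw [← le_div_iff₀ (by positivity)]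
            linarith
          have h5 : ((n : ℝ) + 1) ≤ 2 ^ (n + 1) := by
            have := Nat.lt_two_pow_self (n := n + 1)
            have h6 : ((n + 1 : ℕ) : ℝ) ≤ ((2 ^ (n + 1) : ℕ) : ℝ) := by exact_mod_cast this.le
            push_cast at h6
            exact h6
          have h7 : (n : ℝ) < N := by
            refine lt_of_le_of_lt ?_ hN
            rw [le_div_iff₀ hpos]
            nlinarith
          exact_mod_cast h7
        · simp only [Prod.mk.injEq, true_and]
          rw [← h3]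
          field_simp
  · push Not at h
    refine (Set.finite_singleton ((t, 0) : ℝ × ℝ)).subset ?_
    rintro ⟨a, b⟩ ⟨hp, rfl⟩
    simp only [mem_singleton_iff, Prod.mk.injEq, true_and]
    exact snd_eq_zero_of_not_gap hp h

/-! ### Compactness -/

/-- The whisker with index `(w, n)`. -/
def whisker (w : List Bool) (n : ℕ) : Set (ℝ × ℝ) :=
  (fun t : ℝ => (t, (t - gapL w) / (n + 1))) '' Icc (gapL w) (gapL w + gapS w / 2 ^ (n + 1))

theorem whisker_compact (w : List Bool) (n : ℕ) : IsCompact (whisker w n) := by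
  apply isCompact_Icc.image
  fun_prop

theorem whisker_subset (w : List Bool) (n : ℕ) : whisker w n ⊆ comb := by
  rintro _ ⟨t, ⟨h1, h2⟩, rfl⟩
  have h3 := whisker_half h2
  have h4 := gapL_add_lt w
  have h5 := gapS_pos w
  have h6 := gapL_pos w
  refine ⟨by simp only; linarith, by simp only; linarith, ?_⟩
  rcases h1.eq_or_lt with h | h
  · left
    simp [← h]
  · right
    refine ⟨w, n, h, h2, ?_⟩
    simp only
    field_simp

theorem finite_high {δ : ℝ} (hδ : 0 < δ) :
    {i : List Bool × ℕ | δ ≤ (gapS i.1 / 2 ^ (i.2 + 1)) / (i.2 + 1)}.Finite := by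
  obtain ⟨N, hN⟩ := exists_pow_lt_of_lt_one hδ (by norm_num : (1 / 2 : ℝ) < 1)
  have hsub : {i : List Bool × ℕ | δ ≤ (gapS i.1 / 2 ^ (i.2 + 1)) / (i.2 + 1)} ⊆
      {w : List Bool | w.length ≤ N} ×ˢ {n : ℕ | n ≤ N} := by
    rintro ⟨w, n⟩ h
    simp only [Set.mem_ofPred_eq] at h
    have h1 : (gapS w / 2 ^ (n + 1)) / ((n : ℝ) + 1) ≤ gapS w / 2 ^ (n + 1) := by
      apply div_le_self
      · have := gapS_pos w
        positivity
      · have : (0 : ℝ) ≤ n := by positivity
        linarith
    have hS : gapS w ≤ (1 / 2) ^ w.length := by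
      unfold gapS
      calc ((1 : ℝ) / 3) ^ (w.length + 1) ≤ (1 / 3) ^ w.length := by
            apply pow_le_pow_of_le_one (by norm_num) (by norm_num) (by omega)
        _ ≤ (1 / 2) ^ w.length := by
            apply pow_le_pow_left₀ (by norm_num) (by norm_num)
    have hS1 : gapS w ≤ 1 := hS.trans (pow_le_one₀ (by norm_num) (by norm_num))
    have h2 : gapS w / 2 ^ (n + 1) ≤ gapS w := by
      apply div_le_self (gapS_pos w).le
      exact one_le_pow₀ (by norm_num)
    have h3 : gapS w / 2 ^ (n + 1) ≤ (1 / 2) ^ n := by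
      rw [div_le_iff₀ (by positivity)]
      have : ((1 : ℝ) / 2) ^ n * 2 ^ (n + 1) = 2 := by
        rw [pow_succ, ← mul_assoc, ← mul_pow]
        norm_num
      rw [this]
      linarith
    constructor
    · show w.length ≤ N
      by_contra hcon
      push Not at hcon
      have : ((1 : ℝ) / 2) ^ w.length ≤ (1 / 2) ^ N :=
        pow_le_pow_of_le_one (by norm_num) (by norm_num) hcon.le
      linarith
    · show n ≤ N
      by_contra hcon
      push Not at hcon
      have : ((1 : ℝ) / 2) ^ n ≤ (1 / 2) ^ N :=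
        pow_le_pow_of_le_one (by norm_num) (by norm_num) hcon.le
      linarith
  refine Set.Finite.subset (Set.Finite.prod ?_ (Set.finite_le_nat N)) hsub
  exact List.finite_length_le Bool N

theorem comb_closed : IsClosed comb := by
  rw [← closure_subset_iff_isClosed]
  intro p hp
  have h0 : p.1 ∈ Icc (0 : ℝ) 1 := by
    have : closure comb ⊆ Prod.fst ⁻¹' Icc (0 : ℝ) 1 :=
      closure_minimal (fun q hq => ⟨hq.1, hq.2.1⟩) (isClosed_Icc.preimage continuous_fst)
    exact this hp
  have h1 : 0 ≤ p.2 := by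
    have : closure comb ⊆ Prod.snd ⁻¹' Ici (0 : ℝ) :=
      closure_minimal (fun q hq => comb_nonneg hq) (isClosed_Ici.preimage continuous_snd)
    exact this hp
  rcases h1.eq_or_lt with h | h
  · exact ⟨h0.1, h0.2, Or.inl h.symm⟩
  · set δ := p.2 / 2 with hδ
    have hδpos : 0 < δ := by positivity
    set I := {i : List Bool × ℕ | δ ≤ (gapS i.1 / 2 ^ (i.2 + 1)) / (i.2 + 1)} with hI
    have hIfin : I.Finite := finite_high hδpos
    have hclosed : IsClosed (⋃ i ∈ I, whisker i.1 i.2) :=
      hIfin.isClosed_biUnion fun i _ => (whisker_compact i.1 i.2).isClosed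
    have hmem : p ∈ closure (⋃ i ∈ I, whisker i.1 i.2) := by
      rw [mem_closure_iff_nhds] at hp ⊢
      intro t ht
      have h2 : {q : ℝ × ℝ | δ < q.2} ∈ 𝓝 p := by
        apply (isOpen_lt continuous_const continuous_snd).mem_nhds
        show δ < p.2
        rw [hδ]
        linarith
      obtain ⟨q, ⟨hq1, hq2⟩, hq3⟩ := hp _ (inter_mem ht h2)
      refine ⟨q, hq1, ?_⟩
      have hq2' : δ < q.2 := hq2
      obtain ⟨-, -, h' | ⟨w, n, h3, h4, h5⟩⟩ := hq3
      · linarith
      · simp only [mem_iUnion]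
        have h6 : q.2 = (q.1 - gapL w) / (n + 1) := by
          rw [← h5]
          field_simp
        refine ⟨(w, n), ?_, ?_⟩
        · show δ ≤ (gapS w / 2 ^ (n + 1)) / (n + 1)
          have : q.2 ≤ (gapS w / 2 ^ (n + 1)) / (n + 1) := by
            rw [h6]
            apply div_le_div_of_nonneg_right _ (by positivity)
            linarith
          linarith
        · refine ⟨q.1, ⟨h3.le, h4⟩, ?_⟩
          simp only
          rw [← h6]
    rw [hclosed.closure_eq] at hmem
    simp only [mem_iUnion] at hmem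
    obtain ⟨i, -, hi⟩ := hmem
    exact whisker_subset _ _ hi

theorem comb_snd_le {p : ℝ × ℝ} (hp : p ∈ comb) : p.2 ≤ 1 := by
  obtain ⟨h0, h1, h | ⟨w, n, h2, h3, h4⟩⟩ := hp
  · rw [h]; norm_num
  · have h5 := gapL_pos w
    have h6 : (0 : ℝ) ≤ n := by positivity
    have h7 : 0 ≤ p.2 := comb_nonneg ⟨h0, h1, Or.inr ⟨w, n, h2, h3, h4⟩⟩
    nlinarith

theorem comb_compact : IsCompact comb := by
  refine IsCompact.of_isClosed_subset (isCompact_Icc (a := ((0, 0) : ℝ × ℝ)) (b := (1, 1)))
    comb_closed ?_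
  intro p hp
  exact ⟨⟨hp.1, comb_nonneg hp⟩, ⟨hp.2.1, comb_snd_le hp⟩⟩

instance : CompactSpace comb := isCompact_iff_compactSpace.1 comb_compact

/-! ### Paths with finite fibres -/

/-- The two points are joined by a path with finite fibres. -/
def FinJoined {X : Type*} [TopologicalSpace X] (x y : X) : Prop :=
  ∃ γ : Path x y, ∀ z, (γ ⁻¹' {z}).Finite

theorem FinJoined.symm {X : Type*} [TopologicalSpace X] {x y : X} (h : FinJoined x y) :
    FinJoined y x := by
  obtain ⟨γ, hγ⟩ := h
  refine ⟨γ.symm, fun z => ?_⟩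
  have : (γ.symm ⁻¹' {z}) = unitInterval.symm ⁻¹' (γ ⁻¹' {z}) := by
    ext t
    simp [Path.symm_apply]
  rw [this]
  exact (hγ z).preimage (unitInterval.symm_bijective.injective.injOn)

theorem FinJoined.trans {X : Type*} [TopologicalSpace X] {x y w : X} (h : FinJoined x y)
    (h' : FinJoined y w) : FinJoined x w := by
  obtain ⟨γ, hγ⟩ := h
  obtain ⟨γ', hγ'⟩ := h'
  refine ⟨γ.trans γ', fun z => ?_⟩
  have h1 : ((fun t : unitInterval => (t : ℝ) / 2) '' (γ ⁻¹' {z})).Finite := (hγ z).image _
  have h2 : ((fun t : unitInterval => ((t : ℝ) + 1) / 2) '' (γ' ⁻¹' {z})).Finite := (hγ' z).image _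
  have h3 := (h1.union h2).preimage (f := ((↑) : unitInterval → ℝ)) Subtype.val_injective.injOn
  refine h3.subset ?_
  intro t ht
  have ht' : (γ.trans γ') t = z := ht
  rw [Path.trans_apply] at ht'
  by_cases hc : (t : ℝ) ≤ 1 / 2
  · rw [dif_pos hc] at ht'
    left
    refine ⟨_, ht', ?_⟩
    simp only
    ring
  · rw [dif_neg hc] at ht'
    right
    refine ⟨_, ht', ?_⟩
    simp only
    ring

/-- The left end point of the spine. -/
def org : comb := ⟨(0, 0), spine_mem le_rfl zero_le_one⟩

/-- The right end point of the spine. -/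
def fin1 : comb := ⟨(1, 0), spine_mem zero_le_one le_rfl⟩

/-- A graph from the origin to a given point. -/
theorem exists_graph {p : ℝ × ℝ} (hp : p ∈ comb) : ∃ h : ℝ → ℝ, Continuous h ∧ h 0 = 0 ∧
    h p.1 = p.2 ∧ ∀ t, 0 ≤ t → t ≤ p.1 → (t, h t) ∈ comb := by
  obtain ⟨h0, h1, h | ⟨w, n, h2, h3, h4⟩⟩ := hp
  · exact ⟨fun _ => 0, continuous_const, rfl, h.symm, fun t ht ht' => spine_mem ht (ht'.trans h1)⟩
  · refine ⟨fun t => max 0 ((t - gapL w) / (n + 1)), by fun_prop, ?_, ?_, ?_⟩
    · simp only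
      rw [max_eq_left]
      apply div_nonpos_of_nonpos_of_nonneg
      · have := gapL_pos w
        linarith
      · positivity
    · have h6 : p.2 = (p.1 - gapL w) / (n + 1) := by
        rw [← h4]
        field_simp
      simp only
      rw [← h6, max_eq_right]
      rw [h6]
      apply div_nonneg
      · linarith
      · positivity
    · intro t ht ht'
      refine ⟨ht, ht'.trans h1, ?_⟩
      by_cases hc : t ≤ gapL w
      · left
        simp only
        rw [max_eq_left]
        apply div_nonpos_of_nonpos_of_nonneg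
        · linarith
        · positivity
      · push Not at hc
        right
        refine ⟨w, n, hc, ht'.trans h3, ?_⟩
        simp only
        rw [max_eq_right]
        · field_simp
        · apply div_nonneg
          · linarith
          · positivity

theorem finJoined_org {p : comb} (hp : p ≠ org) : FinJoined org p := by
  obtain ⟨h, hc, h0, h1, hmem⟩ := exists_graph p.2
  have hpos : 0 < p.1.1 := by
    rcases p.2.1.eq_or_lt with h' | h'
    · exfalso
      apply hp
      have h2 : p.1.2 = 0 := by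
        rw [← h1, ← h', h0]
      apply Subtype.ext
      apply Prod.ext
      · exact h'.symm
      · exact h2
    · exact h'
  have hm : ∀ t : unitInterval, ((p.1.1 * (t : ℝ), h (p.1.1 * (t : ℝ))) : ℝ × ℝ) ∈ comb := by
    intro t
    apply hmem
    · exact mul_nonneg hpos.le t.2.1
    · exact mul_le_of_le_one_right hpos.le t.2.2
  refine ⟨⟨⟨fun t => ⟨_, hm t⟩, ?_⟩, ?_, ?_⟩, ?_⟩
  · apply Continuous.subtype_mk
    fun_prop
  · apply Subtype.ext
    simp [org, h0]
  · apply Subtype.ext
    simp [h1]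
  · intro z
    apply Set.Subsingleton.finite
    intro s hs t ht
    have hs' : (⟨_, hm s⟩ : comb) = z := hs
    have ht' : (⟨_, hm t⟩ : comb) = z := ht
    have := congrArg (fun q : comb => q.1.1) (hs'.trans ht'.symm)
    simp only at this
    apply Subtype.ext
    exact mul_left_cancel₀ hpos.ne' this

theorem finJoined_all (p q : comb) : FinJoined p q := by
  have h1 : FinJoined org fin1 := finJoined_org (by
    intro h
    have := congrArg (fun q : comb => q.1.1) h
    simp [org, fin1] at this)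
  have h2 : ∀ p : comb, FinJoined org p := by
    intro p
    by_cases hp : p = org
    · rw [hp]
      exact h1.trans h1.symm
    · exact finJoined_org hp
  exact (h2 p).symm.trans (h2 q)

instance : ConnectedSpace comb := by
  have : PathConnectedSpace comb := by
    refine ⟨⟨org⟩, fun x y => ?_⟩
    obtain ⟨γ, -⟩ := finJoined_all x y
    exact ⟨γ⟩
  infer_instance

/-! ### Homogeneity with respect to finite-to-one mappings -/

/-- A function which is finite-to-one with prescribed values at two points. -/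
theorem exists_fold {s t : ℝ} (hst : s ≠ t) : ∃ l : ℝ → unitInterval, Continuous l ∧ l s = 0 ∧
    l t = 1 ∧ ∀ c, (l ⁻¹' {c}).Finite := by
  have hpos : ∀ x : ℝ, 0 < |x - s| + |x - t| := by
    intro x
    rcases eq_or_ne x s with h | h
    · have : 0 < |x - t| := abs_pos.2 (sub_ne_zero.2 (h ▸ hst))
      have := abs_nonneg (x - s)
      linarith
    · have : 0 < |x - s| := abs_pos.2 (sub_ne_zero.2 h)
      have := abs_nonneg (x - t)
      linarith
  have hm : ∀ x : ℝ, |x - s| / (|x - s| + |x - t|) ∈ unitInterval := by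
    intro x
    constructor
    · have := abs_nonneg (x - s)
      have := hpos x
      positivity
    · rw [div_le_one (hpos x)]
      linarith [abs_nonneg (x - t)]
  refine ⟨fun x => ⟨_, hm x⟩, ?_, ?_, ?_, ?_⟩
  · apply Continuous.subtype_mk
    apply Continuous.div (by fun_prop) (by fun_prop)
    intro x
    exact (hpos x).ne'
  · apply Subtype.ext
    simp
  · apply Subtype.ext
    have h : |t - s| ≠ 0 := abs_ne_zero.2 (sub_ne_zero.2 hst.symm)
    show |t - s| / (|t - s| + |t - t|) = 1
    rw [sub_self, abs_zero, add_zero, div_self h]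
  · intro c
    have hsub : ((fun x => (⟨_, hm x⟩ : unitInterval)) ⁻¹' {c}) ⊆
        ({(s + t) / 2, ((1 - c) * s - c * t) / (1 - 2 * c), (1 - c) * s + c * t} : Set ℝ) := by
      intro x hx
      have hx' : |x - s| / (|x - s| + |x - t|) = c := congrArg Subtype.val hx
      rw [div_eq_iff (hpos x).ne'] at hx'
      have h1 : (1 - (c : ℝ)) * |x - s| = c * |x - t| := by linarith
      have h2 : |(1 - (c : ℝ)) * (x - s)| = |c * (x - t)| := by
        rw [abs_mul, abs_mul, abs_of_nonneg c.2.1, abs_of_nonneg (sub_nonneg.2 c.2.2)]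
        exact h1
      simp only [mem_insert_iff, mem_singleton_iff]
      rcases abs_eq_abs.1 h2 with h | h
      · by_cases hc : (1 : ℝ) - 2 * c = 0
        · have hc' : (c : ℝ) = 1 / 2 := by linarith
          rw [hc'] at h
          exfalso
          apply hst
          linarith
        · right; left
          rw [eq_div_iff hc]
          linarith
      · right; right
        linarith
    exact (by simp : ({(s + t) / 2, ((1 - (c : ℝ)) * s - c * t) / (1 - 2 * c),
      (1 - (c : ℝ)) * s + c * t} : Set ℝ).Finite).subset hsub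

/-- A finite-to-one curve with prescribed values at two parameters. -/
theorem exists_curve {s t : ℝ} (hst : s ≠ t) (p q : comb) : ∃ g : ℝ → comb, Continuous g ∧
    g s = p ∧ g t = q ∧ ∀ z, (g ⁻¹' {z}).Finite := by
  obtain ⟨γ, hγ⟩ := finJoined_all p q
  obtain ⟨l, hl, hs, ht, hf⟩ := exists_fold hst
  refine ⟨fun x => γ (l x), γ.continuous.comp hl, by simp [hs], by simp [ht], fun z => ?_⟩
  exact (hγ z).preimage' (f := l) fun b _ => hf b

theorem finite_fst_preimage (S : Set ℝ) (hS : S.Finite) :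
    {x : comb | x.1.1 ∈ S}.Finite := by
  have h1 : {x : comb | x.1.1 ∈ S} ⊆ ⋃ t ∈ S, (Subtype.val ⁻¹' {p : ℝ × ℝ | p ∈ comb ∧ p.1 = t}) := by
    intro x hx
    simp only [mem_iUnion]
    exact ⟨x.1.1, hx, x.2, rfl⟩
  refine (hS.biUnion fun t _ => ?_).subset h1
  exact (finite_fibre t).preimage Subtype.val_injective.injOn

theorem fst_eq_third {p : ℝ × ℝ} (hp : p ∈ comb) (h : p.1 = 1 / 3) : p.2 = 0 := by
  rcases comb_gap_snd hp (w := []) (by rw [gap_nil, h]; norm_num) with h' | ⟨n, h1, -, -⟩
  · exact h'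
  · simp only [gapL] at h1
    linarith

theorem fst_eq_two_third {p : ℝ × ℝ} (hp : p ∈ comb) (h : p.1 = 2 / 3) : p.2 = 0 := by
  have h1 := unscale1 hp (by rw [h])
  have h2 : (3 * p.1 - 2, 3 * p.2).1 = 0 := by
    simp only
    rw [h]
    norm_num
  have h3 : (3 * p.1 - 2, 3 * p.2).2 = 0 := by
    apply snd_eq_zero_of_not_gap h1
    intro w hw
    have := hw.pos
    rw [h2] at this
    exact lt_irrefl _ this
  simp only at h3
  linarith

theorem comb_finHomogeneous (a b : comb) : ∃ f : comb → comb,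
    (Continuous f ∧ ∀ y, (f ⁻¹' {y}).Finite) ∧ Function.Surjective f ∧ f a = b := by
  classical
  by_cases ha : 1 / 3 < a.1.1
  · obtain ⟨g, hg, hg1, hg2, hgf⟩ := exists_curve ha.ne fin1 b
    let f : comb → comb := fun x => if h : x.1.1 ≤ 1 / 3 then ⟨_, unscale0 x.2 h⟩ else g x.1.1
    have hfval : ∀ x, f x = if h : x.1.1 ≤ 1 / 3 then ⟨_, unscale0 x.2 h⟩ else g x.1.1 :=
      fun x => rfl
    refine ⟨f, ⟨?_, ?_⟩, ?_, ?_⟩
    · rw [continuous_induced_rng]
      have : (Subtype.val ∘ f) = fun x : comb => if x.1.1 ≤ 1 / 3 then (3 * x.1.1, 3 * x.1.2)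
          else (g x.1.1).1 := by
        funext x
        simp only [Function.comp, hfval]
        split_ifs <;> rfl
      rw [this]
      apply Continuous.if_le (by fun_prop) (by fun_prop) (by fun_prop) (by fun_prop)
      intro x hx
      rw [hx, hg1]
      have := fst_eq_third x.2 hx
      simp [fin1, this]
    · intro y
      have hsub : f ⁻¹' {y} ⊆ {x | x.1.1 ∈ ({y.1.1 / 3} : Set ℝ)} ∪ {x | x.1.1 ∈ g ⁻¹' {y}} := by
        intro x hx
        have hx' : f x = y := hx
        rw [hfval] at hx'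
        split_ifs at hx' with h
        · left
          rw [← hx']
          simp
        · right
          exact hx'
      exact ((finite_fst_preimage _ (Set.finite_singleton _)).union
        (finite_fst_preimage _ (hgf y))).subset hsub
    · intro y
      refine ⟨⟨_, scale0 y.2⟩, ?_⟩
      rw [hfval]
      have h1 := y.2.2.1
      rw [dif_pos (by simp only; linarith)]
      apply Subtype.ext
      apply Prod.ext
      · simp only; ring
      · simp only; ring
    · rw [hfval, dif_neg (not_le.2 ha), hg2]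
  · push Not at ha
    have ha' : a.1.1 ≠ 2 / 3 := by
      intro h
      linarith
    obtain ⟨g, hg, hg1, hg2, hgf⟩ := exists_curve ha'.symm org b
    let f : comb → comb := fun x => if h : 2 / 3 ≤ x.1.1 then ⟨_, unscale1 x.2 h⟩ else g x.1.1
    have hfval : ∀ x, f x = if h : 2 / 3 ≤ x.1.1 then ⟨_, unscale1 x.2 h⟩ else g x.1.1 :=
      fun x => rfl
    refine ⟨f, ⟨?_, ?_⟩, ?_, ?_⟩
    · rw [continuous_induced_rng]
      have : (Subtype.val ∘ f) = fun x : comb => if 2 / 3 ≤ x.1.1 then (3 * x.1.1 - 2, 3 * x.1.2)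
          else (g x.1.1).1 := by
        funext x
        simp only [Function.comp, hfval]
        split_ifs <;> rfl
      rw [this]
      apply Continuous.if_le (by fun_prop) (by fun_prop) (by fun_prop) (by fun_prop)
      intro x hx
      rw [← hx, hg1]
      have := fst_eq_two_third x.2 hx.symm
      simp [org, this]
      norm_num
    · intro y
      have hsub : f ⁻¹' {y} ⊆ {x | x.1.1 ∈ ({(y.1.1 + 2) / 3} : Set ℝ)} ∪
          {x | x.1.1 ∈ g ⁻¹' {y}} := by
        intro x hx
        have hx' : f x = y := hx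
        rw [hfval] at hx'
        split_ifs at hx' with h
        · left
          rw [← hx']
          simp
        · right
          exact hx'
      exact ((finite_fst_preimage _ (Set.finite_singleton _)).union
        (finite_fst_preimage _ (hgf y))).subset hsub
    · intro y
      refine ⟨⟨_, scale1 y.2⟩, ?_⟩
      rw [hfval]
      have h1 := y.2.1
      rw [dif_pos (by simp only; linarith)]
      apply Subtype.ext
      apply Prod.ext
      · simp only; ring
      · simp only; ring
    · rw [hfval, dif_neg (not_le.2 (by linarith)), hg2]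

/-! ### The clopen pieces at `(1/3, 0)` -/

/-- The branching point. -/
noncomputable def dpt : comb := ⟨(1 / 3, 0), spine_mem (by norm_num) (by norm_num)⟩

/-- The whisker with number `n` at `(1/3, 0)`, without its base. -/
def piece (n : ℕ) : Set comb :=
  {x | 1 / 3 < x.1.1 ∧ x.1.1 < 2 / 3 ∧ x.1.1 - 1 / 3 < (n + 2) * x.1.2 ∧ n * x.1.2 < x.1.1 - 1 / 3}

theorem piece_eq (n : ℕ) : piece n = {x : comb | 1 / 3 < x.1.1 ∧
    x.1.1 ≤ 1 / 3 + 1 / 3 / 2 ^ (n + 1) ∧ (n + 1) * x.1.2 = x.1.1 - 1 / 3} := by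
  ext x
  constructor
  · rintro ⟨h1, h2, h3, h4⟩
    have hg : Gap [] x.1.1 := gap_nil.2 ⟨h1.le, h2⟩
    rcases comb_gap_snd x.2 hg with h | ⟨m, h5, h6, h7⟩
    · rw [h, mul_zero] at h3
      linarith
    · norm_num [gapL, gapS] at h5 h6 h7
      have hpos : 0 < x.1.2 := by
        have : 0 < ((m : ℝ) + 1) * x.1.2 := by rw [h7]; linarith
        exact pos_of_mul_pos_right this (by positivity)
      have h8 : ((m : ℝ) + 1) * x.1.2 < (n + 2) * x.1.2 := by rw [h7]; exact h3
      have h9 : (n : ℝ) * x.1.2 < ((m : ℝ) + 1) * x.1.2 := by rw [h7]; exact h4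
      have h10 := lt_of_mul_lt_mul_right h8 hpos.le
      have h11 := lt_of_mul_lt_mul_right h9 hpos.le
      have h12 : m < n + 1 := by
        have : (m : ℝ) < n + 1 := by linarith
        exact_mod_cast this
      have h13 : n < m + 1 := by exact_mod_cast h11
      obtain rfl : m = n := by omega
      refine ⟨h1, ?_, h7⟩
      norm_num
      exact h6
  · rintro ⟨h1, h2, h3⟩
    have h4 : (1 : ℝ) / 3 / 2 ^ (n + 1) ≤ 1 / 3 / 2 := by
      apply div_le_div_of_nonneg_left (by norm_num) (by norm_num)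
      calc (2 : ℝ) = 2 ^ 1 := by norm_num
        _ ≤ 2 ^ (n + 1) := pow_le_pow_right₀ (by norm_num) (by omega)
    have hpos : 0 < x.1.2 := by
      have : 0 < ((n : ℝ) + 1) * x.1.2 := by rw [h3]; linarith
      exact pos_of_mul_pos_right this (by positivity)
    refine ⟨h1, by linarith, ?_, ?_⟩
    · rw [← h3]
      nlinarith
    · rw [← h3]
      nlinarith

theorem piece_open (n : ℕ) : IsOpen (piece n) := by
  exact IsOpen.and (isOpen_lt (by fun_prop) (by fun_prop)) (IsOpen.and
    (isOpen_lt (by fun_prop) (by fun_prop)) (IsOpen.and (isOpen_lt (by fun_prop) (by fun_prop))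
    (isOpen_lt (by fun_prop) (by fun_prop))))

theorem piece_closed (n : ℕ) : IsClosed (piece n ∪ {dpt}) := by
  have : piece n ∪ {dpt} = {x : comb | 1 / 3 ≤ x.1.1 ∧
    x.1.1 ≤ 1 / 3 + 1 / 3 / 2 ^ (n + 1) ∧ (n + 1) * x.1.2 = x.1.1 - 1 / 3} := by
    rw [piece_eq]
    ext x
    constructor
    · rintro (⟨h1, h2, h3⟩ | h)
      · exact ⟨h1.le, h2, h3⟩
      · rw [mem_singleton_iff.1 h]
        refine ⟨?_, ?_, ?_⟩
        · simp [dpt]
        · simp only [dpt]
          have : (0 : ℝ) < 1 / 3 / 2 ^ (n + 1) := by positivity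
          linarith
        · simp [dpt]
    · rintro ⟨h1, h2, h3⟩
      rcases h1.eq_or_lt with h | h
      · right
        rw [← h, sub_self] at h3
        rcases mul_eq_zero.1 h3 with h4 | h4
        · exfalso
          have : (0 : ℝ) < n + 1 := by positivity
          linarith
        · apply Subtype.ext
          apply Prod.ext
          · exact h.symm
          · exact h4
      · exact Or.inl ⟨h, h2, h3⟩
  rw [this]
  exact IsClosed.and (isClosed_le (by fun_prop) (by fun_prop)) (IsClosed.and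
    (isClosed_le (by fun_prop) (by fun_prop)) (isClosed_eq (by fun_prop) (by fun_prop)))

theorem piece_nonempty (n : ℕ) : (piece n).Nonempty := by
  rw [piece_eq]
  have h1 : (0 : ℝ) < 1 / 3 / 2 ^ (n + 1) := by positivity
  have h2 : (1 / 3 + 1 / 3 / 2 ^ (n + 1), (1 / 3 / 2 ^ (n + 1)) / ((n : ℝ) + 1)) ∈ comb := by
    apply whisker_subset [] n
    refine ⟨1 / 3 + 1 / 3 / 2 ^ (n + 1), ⟨?_, ?_⟩, ?_⟩
    · simp only [gapL]
      linarith
    · norm_num [gapL, gapS]
    · simp only [gapL, Prod.mk.injEq, true_and]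
      congr 1
      ring
  refine ⟨⟨_, h2⟩, ?_, ?_, ?_⟩
  · simp only; linarith
  · simp
  · simp only; field_simp; ring

theorem piece_disjoint : Pairwise (fun m n => Disjoint (piece m) (piece n)) := by
  intro m n hmn
  rw [Set.disjoint_left]
  intro x hm hn
  rw [piece_eq] at hm hn
  obtain ⟨h1, -, h3⟩ := hm
  obtain ⟨-, -, h3'⟩ := hn
  apply hmn
  have hpos : 0 < x.1.2 := by
    have : 0 < ((n : ℝ) + 1) * x.1.2 := by rw [h3']; linarith
    exact pos_of_mul_pos_right this (by positivity)
  have h4 : ((m : ℝ) + 1) = n + 1 := mul_right_cancel₀ hpos.ne' (h3.trans h3'.symm)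
  have : (m : ℝ) = n := by linarith
  exact_mod_cast this

theorem dpt_not_mem_piece (n : ℕ) : dpt ∉ piece n := by
  intro h
  have := h.1
  simp [dpt] at this

/-! ### Tameness -/

/-- If a point has a neighbourhood which is a graph over an order-connected set, it is tame. -/
theorem tame_of_graph {x : comb} {W : Set comb} (hW : IsOpen W) (hxW : x ∈ W) {J : Set ℝ}
    (hJ : J.OrdConnected) {h : ℝ → ℝ × ℝ} (hh : Continuous h) (hmem : ∀ t ∈ J, h t ∈ comb)
    (hfst : ∀ t ∈ J, (h t).1 = t) (hWJ : ∀ y ∈ W, y.1.1 ∈ J ∧ h y.1.1 = y.1) : Tame x := by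
  intro G hG hxG
  obtain ⟨V, hV, hVG⟩ := isOpen_induced_iff.1 hG
  obtain ⟨hxJ, hx1⟩ := hWJ x hxW
  have hxV : h x.1.1 ∈ V := by
    rw [hx1]
    have : x ∈ Subtype.val ⁻¹' V := hVG ▸ hxG
    exact this
  obtain ⟨ε, hε, hball⟩ := Metric.isOpen_iff.1 (hV.preimage hh) x.1.1 hxV
  have hpre : ∀ S : Set ℝ, S.OrdConnected → IsPreconnected {y : comb | ∃ t ∈ J ∩ S, h t = y.1} := by
    intro S hS
    have h1 : (J ∩ S).OrdConnected := hJ.inter hS
    have h2 : IsPreconnected (h '' (J ∩ S)) := h1.isPreconnected.image h hh.continuousOn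
    have h3 : {y : comb | ∃ t ∈ J ∩ S, h t = y.1} = Subtype.val ⁻¹' (h '' (J ∩ S)) := rfl
    rw [h3]
    rw [← Topology.IsInducing.subtypeVal.isPreconnected_image]
    rw [image_preimage_eq_of_subset]
    · exact h2
    · rintro _ ⟨t, ht, rfl⟩
      exact ⟨⟨h t, hmem t ht.1⟩, rfl⟩
  refine ⟨W ∩ {y | |y.1.1 - x.1.1| < ε},
    fun i => {y : comb | ∃ t ∈ J ∩ (if i then Ioo (x.1.1 - ε) x.1.1 else Ioo x.1.1 (x.1.1 + ε)),
      h t = y.1}, hW.inter (isOpen_lt (by fun_prop) (by fun_prop)), ⟨hxW, ?_⟩, ?_, ?_, ?_⟩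
  · simpa using hε
  · intro i
    apply hpre
    cases i <;> simp only [Bool.false_eq_true, if_false, if_true] <;> exact ordConnected_Ioo
  · rintro i y ⟨t, ⟨htJ, ht⟩, hty⟩
    have ht' : |t - x.1.1| < ε ∧ t ≠ x.1.1 := by
      cases i
      · simp only [Bool.false_eq_true, if_false] at ht
        refine ⟨?_, ht.1.ne'⟩
        rw [abs_lt]
        constructor <;> linarith [ht.1, ht.2]
      · simp only [if_true] at ht
        refine ⟨?_, ht.2.ne⟩
        rw [abs_lt]
        constructor <;> linarith [ht.1, ht.2]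
    constructor
    · have : t ∈ h ⁻¹' V := hball (by rw [Metric.mem_ball, Real.dist_eq]; exact ht'.1)
      rw [← hVG]
      show y.1 ∈ V
      rw [← hty]
      exact this
    · intro hyx
      rw [mem_singleton_iff] at hyx
      apply ht'.2
      rw [← hfst t htJ, hty, hyx]
  · rintro y ⟨⟨hyW, hyε⟩, hyx⟩
    obtain ⟨hyJ, hy1⟩ := hWJ y hyW
    have hne : y.1.1 ≠ x.1.1 := by
      intro h'
      apply hyx
      rw [mem_singleton_iff]
      apply Subtype.ext
      rw [← hy1, ← hx1, h']
    have hyε' : |y.1.1 - x.1.1| < ε := hyε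
    rw [abs_lt] at hyε'
    simp only [mem_iUnion]
    rcases lt_or_gt_of_ne hne with h' | h'
    · exact ⟨true, y.1.1, ⟨hyJ, by simp only [if_true]; exact ⟨by linarith [hyε'.1], h'⟩⟩, hy1⟩
    · exact ⟨false, y.1.1, ⟨hyJ, by
        simp only [Bool.false_eq_true, if_false]; exact ⟨h', by linarith [hyε'.2]⟩⟩, hy1⟩

/-- Points of the open whiskers are tame. -/
theorem tame_whisker {x : comb} (hx : x.1.2 ≠ 0) : Tame x := by
  obtain ⟨h0, h1, h | ⟨w, n, h2, h3, h4⟩⟩ := x.2
  · exact absurd h hx
  have hpos : 0 < x.1.2 := lt_of_le_of_ne (comb_nonneg x.2) (Ne.symm hx)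
  refine tame_of_graph (W := {y : comb | gapL w < y.1.1 ∧ y.1.1 < gapL w + gapS w ∧
    y.1.1 - gapL w < (n + 2) * y.1.2 ∧ n * y.1.2 < y.1.1 - gapL w}) ?_ ?_
    (J := Ioc (gapL w) (gapL w + gapS w / 2 ^ (n + 1))) ordConnected_Ioc
    (h := fun t => (t, (t - gapL w) / (n + 1))) (by fun_prop) ?_ ?_ ?_
  · exact IsOpen.and (isOpen_lt (by fun_prop) (by fun_prop)) (IsOpen.and
      (isOpen_lt (by fun_prop) (by fun_prop)) (IsOpen.and (isOpen_lt (by fun_prop) (by fun_prop))
      (isOpen_lt (by fun_prop) (by fun_prop))))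
  · refine ⟨h2, (gap_of_whisker h2 h3).2, ?_, ?_⟩
    · rw [← h4]; nlinarith
    · rw [← h4]; nlinarith
  · intro t ht
    exact whisker_subset w n ⟨t, ⟨ht.1.le, ht.2⟩, rfl⟩
  · intro t _
    rfl
  · rintro y ⟨g1, g2, g3, g4⟩
    have hg : Gap w y.1.1 := ⟨g1.le, g2⟩
    rcases comb_gap_snd y.2 hg with h | ⟨m, h5, h6, h7⟩
    · rw [h, mul_zero] at g3
      linarith
    · have hpos : 0 < y.1.2 := by
        have : 0 < ((m : ℝ) + 1) * y.1.2 := by rw [h7]; linarith
        exact pos_of_mul_pos_right this (by positivity)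
      have h8 : ((m : ℝ) + 1) * y.1.2 < (n + 2) * y.1.2 := by rw [h7]; exact g3
      have h9 : (n : ℝ) * y.1.2 < ((m : ℝ) + 1) * y.1.2 := by rw [h7]; exact g4
      have h10 := lt_of_mul_lt_mul_right h8 hpos.le
      have h11 := lt_of_mul_lt_mul_right h9 hpos.le
      have h12 : m < n + 1 := by
        have : (m : ℝ) < n + 1 := by linarith
        exact_mod_cast this
      have h13 : n < m + 1 := by exact_mod_cast h11
      obtain rfl : m = n := by omega
      refine ⟨⟨g1, h6⟩, ?_⟩
      apply Prod.ext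
      · rfl
      · simp only
        rw [← h7]
        field_simp

/-- Points of the spine over the open gaps are tame. -/
theorem tame_gap {x : comb} (hx : x.1.2 = 0) {w : List Bool} (h1 : gapL w < x.1.1)
    (h2 : x.1.1 < gapL w + gapS w) : Tame x := by
  refine tame_of_graph (W := {y : comb | gapL w < y.1.1 ∧ y.1.1 < gapL w + gapS w ∧
    y.1.2 * gapS w < (y.1.1 - gapL w) ^ 2}) ?_ ?_
    (J := Ioo (gapL w) (gapL w + gapS w)) ordConnected_Ioo
    (h := fun t => (t, 0)) (by fun_prop) ?_ ?_ ?_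
  · exact IsOpen.and (isOpen_lt (by fun_prop) (by fun_prop)) (IsOpen.and
      (isOpen_lt (by fun_prop) (by fun_prop)) (isOpen_lt (by fun_prop) (by fun_prop)))
  · refine ⟨h1, h2, ?_⟩
    rw [hx, zero_mul]
    have : 0 < x.1.1 - gapL w := by linarith
    positivity
  · intro t ht
    have h3 := gapL_pos w
    have h4 := gapL_add_lt w
    exact spine_mem (by linarith [ht.1]) (by linarith [ht.2])
  · intro t _
    rfl
  · rintro y ⟨g1, g2, g3⟩
    have h3 := comb_gap_low y.2 ⟨g1.le, g2⟩ g3
    exact ⟨⟨g1, g2⟩, Prod.ext rfl h3.symm⟩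

/-- A cut of the comb is connected if no whisker crosses its left end. -/
theorem strip_preconnected {p q : ℝ} (hp : ∀ w, ¬ (gapL w ≤ p ∧ p ≤ gapL w + gapS w / 2)) :
    IsPreconnected {x : comb | p < x.1.1 ∧ x.1.1 < q} := by
  -- the spine part
  have hspine : IsPreconnected {x : comb | (p < x.1.1 ∧ x.1.1 < q) ∧ x.1.2 = 0} := by
    rw [← Topology.IsInducing.subtypeVal.isPreconnected_image]
    have h1 : Subtype.val '' {x : comb | (p < x.1.1 ∧ x.1.1 < q) ∧ x.1.2 = 0} =
        (fun t : ℝ => ((t, 0) : ℝ × ℝ)) '' (Icc 0 1 ∩ Ioo p q) := by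
      ext y
      constructor
      · rintro ⟨x, ⟨hx1, hx2⟩, rfl⟩
        exact ⟨x.1.1, ⟨⟨x.2.1, x.2.2.1⟩, hx1⟩, Prod.ext rfl hx2.symm⟩
      · rintro ⟨t, ⟨ht1, ht2⟩, rfl⟩
        exact ⟨⟨(t, 0), spine_mem ht1.1 ht1.2⟩, ⟨ht2, rfl⟩, rfl⟩
    rw [h1]
    apply IsPreconnected.image
    · exact (ordConnected_Icc.inter ordConnected_Ioo).isPreconnected
    · fun_prop
  -- each point is joined to the spine part
  have hjoin : ∀ y ∈ {x : comb | p < x.1.1 ∧ x.1.1 < q}, ∃ T ⊆ {x : comb | p < x.1.1 ∧ x.1.1 < q},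
      {x : comb | (p < x.1.1 ∧ x.1.1 < q) ∧ x.1.2 = 0} ⊆ T ∧ y ∈ T ∧ IsPreconnected T := by
    rintro y ⟨hy1, hy2⟩
    by_cases hy0 : y.1.2 = 0
    · exact ⟨_, fun x hx => hx.1, subset_rfl, ⟨⟨hy1, hy2⟩, hy0⟩, hspine⟩
    · obtain ⟨-, h1, h | ⟨w, n, h2, h3, h4⟩⟩ := y.2
      · exact absurd h hy0
      have hpw : p < gapL w := by
        by_contra hcon
        push Not at hcon
        exact hp w ⟨hcon, by linarith [whisker_half h3]⟩
      have hw0 := gapL_pos w
      set T1 : Set comb := {x : comb | (gapL w ≤ x.1.1 ∧ x.1.1 ≤ y.1.1) ∧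
        (n + 1) * x.1.2 = x.1.1 - gapL w} with hT1
      have hT1c : IsPreconnected T1 := by
        rw [← Topology.IsInducing.subtypeVal.isPreconnected_image]
        have h1 : Subtype.val '' T1 =
            (fun t : ℝ => ((t, (t - gapL w) / (n + 1)) : ℝ × ℝ)) '' (Icc (gapL w) y.1.1) := by
          ext z
          constructor
          · rintro ⟨x, ⟨hx1, hx2⟩, rfl⟩
            refine ⟨x.1.1, hx1, Prod.ext rfl ?_⟩
            simp only
            rw [← hx2]
            field_simp
          · rintro ⟨t, ht, rfl⟩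
            refine ⟨⟨(t, (t - gapL w) / (n + 1)), whisker_subset w n
              ⟨t, ⟨ht.1, ht.2.trans h3⟩, rfl⟩⟩, ⟨ht, ?_⟩, rfl⟩
            simp only
            field_simp
        rw [h1]
        apply isPreconnected_Icc.image
        fun_prop
      refine ⟨{x : comb | (p < x.1.1 ∧ x.1.1 < q) ∧ x.1.2 = 0} ∪ T1, ?_, subset_union_left,
        Or.inr ⟨⟨h2.le, le_rfl⟩, h4⟩, ?_⟩
      · rintro x (hx | hx)
        · exact hx.1
        · exact ⟨lt_of_lt_of_le hpw hx.1.1, lt_of_le_of_lt hx.1.2 hy2⟩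
      · refine IsPreconnected.union (⟨(gapL w, 0), spine_mem hw0.le (by linarith)⟩ : comb) ?_ ?_
          hspine hT1c
        · exact ⟨⟨hpw, by simp only; linarith⟩, rfl⟩
        · refine ⟨⟨le_rfl, h2.le⟩, ?_⟩
          simp
  -- conclusion
  rcases Set.eq_empty_or_nonempty {x : comb | p < x.1.1 ∧ x.1.1 < q} with he | ⟨y0, hy0⟩
  · rw [he]
    exact isPreconnected_empty
  · -- a point of the spine part
    have hsp : ∃ z : comb, z ∈ {x : comb | (p < x.1.1 ∧ x.1.1 < q) ∧ x.1.2 = 0} :=
      ⟨⟨(y0.1.1, 0), spine_mem y0.2.1 y0.2.2.1⟩, hy0, rfl⟩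
    obtain ⟨z, hz⟩ := hsp
    refine isPreconnected_of_forall z ?_
    intro y hy
    obtain ⟨T, hT1, hT2, hT3, hT4⟩ := hjoin y hy
    exact ⟨T, hT1, hT2 hz, hT3, hT4⟩

/-- Points of the spine outside the gaps are tame. -/
theorem tame_cantor {x : comb} (hx : x.1.2 = 0) (hg : ∀ w, ¬ Gap w x.1.1) : Tame x := by
  intro G hG hxG
  obtain ⟨V, hV, hVG⟩ := isOpen_induced_iff.1 hG
  have hxV : x.1 ∈ V := by
    have : x ∈ Subtype.val ⁻¹' V := hVG ▸ hxG
    exact this
  obtain ⟨ε, hε, hball⟩ := Metric.isOpen_iff.1 hV x.1 hxV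
  -- the height near `x`
  have hheight : ∀ y : comb, y.1.2 ≤ |y.1.1 - x.1.1| := by
    intro y
    obtain ⟨-, -, h | ⟨w, n, h2, h3, h4⟩⟩ := y.2
    · rw [h]
      exact abs_nonneg _
    · have h5 := whisker_half h3
      have h6 : y.1.2 ≤ y.1.1 - gapL w := by
        rw [← h4]
        have h7 := comb_nonneg y.2
        have : (0 : ℝ) ≤ n := by positivity
        nlinarith
      have h8 := gapS_pos w
      by_cases hc : x.1.1 < gapL w
      · rw [abs_of_pos (by linarith)]
        linarith
      · push Not at hc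
        have h9 : gapL w + gapS w ≤ x.1.1 := by
          by_contra hcon
          push Not at hcon
          exact hg w ⟨hc, hcon⟩
        rw [abs_of_nonpos (by linarith)]
        linarith
  -- a good cut on the left
  obtain ⟨p, hp1, hp2, hp3⟩ : ∃ p, x.1.1 - ε < p ∧ p < x.1.1 ∧
      ∀ w, ¬ (gapL w ≤ p ∧ p ≤ gapL w + gapS w / 2) := by
    by_cases hc : ∃ w, gapL w ≤ x.1.1 - ε / 2 ∧ x.1.1 - ε / 2 ≤ gapL w + gapS w / 2
    · obtain ⟨w, h1, h2⟩ := hc
      have h8 := gapS_pos w
      have h9 : gapL w + gapS w ≤ x.1.1 := by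
        by_contra hcon
        push Not at hcon
        exact hg w ⟨by linarith, hcon⟩
      refine ⟨gapL w + 3 / 4 * gapS w, by linarith, by linarith, ?_⟩
      rintro w' ⟨h3, h4⟩
      have h10 : Gap w' (gapL w + 3 / 4 * gapS w) := ⟨h3, by linarith [gapS_pos w']⟩
      have h11 : Gap w (gapL w + 3 / 4 * gapS w) := ⟨by linarith, by linarith⟩
      obtain rfl := gap_unique h10 h11
      linarith
    · push Not at hc
      refine ⟨x.1.1 - ε / 2, by linarith, by linarith, ?_⟩
      rintro w ⟨h1, h2⟩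
      have := hc w h1
      linarith
  have hp4 : ∀ w, ¬ (gapL w ≤ x.1.1 ∧ x.1.1 ≤ gapL w + gapS w / 2) := by
    rintro w ⟨h1, h2⟩
    exact hg w ⟨h1, by linarith [gapS_pos w]⟩
  refine ⟨{y | p < y.1.1 ∧ y.1.1 < x.1.1 + ε},
    fun i => if i then {y | p < y.1.1 ∧ y.1.1 < x.1.1} else {y | x.1.1 < y.1.1 ∧ y.1.1 < x.1.1 + ε},
    IsOpen.and (isOpen_lt (by fun_prop) (by fun_prop)) (isOpen_lt (by fun_prop) (by fun_prop)),
    ⟨hp2, by linarith⟩, ?_, ?_, ?_⟩
  · intro i
    cases i
    · simp only [Bool.false_eq_true, if_false]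
      exact strip_preconnected hp4
    · simp only [if_true]
      exact strip_preconnected hp3
  · intro i y hy
    have hy' : |y.1.1 - x.1.1| < ε ∧ y.1.1 ≠ x.1.1 := by
      cases i
      · simp only [Bool.false_eq_true, if_false] at hy
        refine ⟨?_, hy.1.ne'⟩
        rw [abs_lt]
        constructor <;> linarith [hy.1, hy.2]
      · simp only [if_true] at hy
        refine ⟨?_, hy.2.ne⟩
        rw [abs_lt]
        constructor <;> linarith [hy.1, hy.2]
    constructor
    · rw [← hVG]
      apply hball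
      rw [Metric.mem_ball, Prod.dist_eq, max_lt_iff, Real.dist_eq, Real.dist_eq, hx, sub_zero,
        abs_of_nonneg (comb_nonneg y.2)]
      exact ⟨hy'.1, lt_of_le_of_lt (hheight y) hy'.1⟩
    · intro h
      rw [mem_singleton_iff] at h
      exact hy'.2 (by rw [h])
  · rintro y ⟨hy1, hy2⟩
    have hne : y.1.1 ≠ x.1.1 := by
      intro h
      apply hy2
      rw [mem_singleton_iff]
      apply Subtype.ext
      apply Prod.ext
      · exact h
      · have h1 := hheight y
        rw [h, sub_self, abs_zero] at h1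
        rw [hx]
        exact le_antisymm h1 (comb_nonneg y.2)
    simp only [mem_iUnion]
    rcases lt_or_gt_of_ne hne with h' | h'
    · exact ⟨true, by simp only [if_true]; exact ⟨hy1.1, h'⟩⟩
    · exact ⟨false, by simp only [Bool.false_eq_true, if_false]; exact ⟨h', hy1.2⟩⟩

/-- The exceptional points: the bases of the whiskers. -/
def bases : Set comb := Subtype.val ⁻¹' (range fun w : List Bool => ((gapL w, 0) : ℝ × ℝ))

theorem bases_countable : bases.Countable :=
  (countable_range _).preimage_of_injOn Subtype.val_injective.injOn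

theorem tame_of_not_mem {x : comb} (hx : x ∉ bases) : Tame x := by
  by_cases h0 : x.1.2 = 0
  · by_cases hg : ∃ w, Gap w x.1.1
    · obtain ⟨w, hw⟩ := hg
      refine tame_gap h0 (w := w) (lt_of_le_of_ne hw.1 ?_) hw.2
      intro h
      apply hx
      exact ⟨w, Prod.ext h h0.symm⟩
    · push Not at hg
      exact tame_cantor h0 hg
  · exact tame_whisker h0

theorem comb_not_countable : ¬ (univ : Set comb).Countable := by
  intro h
  have h1 : ((fun x : comb => x.1.1) '' univ).Countable := h.image _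
  have h2 : Icc (0 : ℝ) 1 ⊆ (fun x : comb => x.1.1) '' univ := by
    intro t ht
    exact ⟨⟨(t, 0), spine_mem ht.1 ht.2⟩, mem_univ _, rfl⟩
  have h3 := (h1.mono h2).measure_zero MeasureTheory.volume
  simp at h3

/-- There is a continuum `X` (a nonempty compact connected metric space) which is homogeneous with
respect to finite-to-one mappings, but such that no homogeneous continuum `Y` is equivalent to `X`
with respect to finite-to-one mappings. -/
theorem result.{u} : ∃ (X : Type) (_ : MetricSpace X), CompactSpace X ∧ ConnectedSpace X ∧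
    FinHomogeneous X ∧
    ∀ (Y : Type u) [MetricSpace Y] [CompactSpace Y] [ConnectedSpace Y],
      Homogeneous Y → ¬ FinEquivalent X Y := by
  refine ⟨comb, inferInstance, inferInstance, inferInstance, comb_finHomogeneous, ?_⟩
  rintro Y _ _ _ hY ⟨⟨f, hf, hfs⟩, ⟨g, hg, hgs⟩⟩
  exact not_equivalent comb_not_countable bases_countable (fun x hx => tame_of_not_mem hx)
    piece_nonempty piece_open piece_closed piece_disjoint dpt_not_mem_piece hY hf hfs hg hgs

end Pool.Agent.Results.MP_861931_gt.FiniteToOne
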