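import Mathlib
import Pool.Agent.Lib.MP_861931_gt.Order
import Pool.Agent.Lib.MP_861931_gt.Graph
import Pool.Agent.Lib.MP_861931_gt.Dendrite
import Pool.Agent.Results.MP_861931_gt.FiniteToOne

/-!
# The three classes of mappings

For each of the three classes (monotone, open and finite-to-one mappings) there is a continuum
which is homogeneous with respect to the class, although no homogeneous continuum is equivalent to
it with respect to the class.
-/

open Set Filter Topology

namespace Pool.Agent.Results.MP_861931_gt.AllClasses

open Pool.Agent.Lib.MP_861931_gt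

/-- The three classes of mappings of the question. -/
inductive MapClass : Type
  /-- the monotone mappings -/
  | mono : MapClass
  /-- the open mappings -/
  | opens : MapClass
  /-- the finite-to-one mappings -/
  | fin : MapClass

/-- `Belongs c f`: the function `f` is a mapping of the class `c`, that is,
a continuous surjection with connected point inverses for `c = mono`,
a continuous open function for `c = opens`,
and a continuous function with finite point inverses for `c = fin`. -/
def Belongs (c : MapClass) {X Y : Type*} [TopologicalSpace X] [TopologicalSpace Y]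
    (f : X → Y) : Prop :=
  match c with
  | MapClass.mono => Continuous f ∧ Function.Surjective f ∧ ∀ y, IsConnected (f ⁻¹' {y})
  | MapClass.opens => Continuous f ∧ IsOpenMap f
  | MapClass.fin => Continuous f ∧ ∀ y, (f ⁻¹' {y}).Finite

/-- `X` is homogeneous with respect to the class `c`: for all `a b : X` there is a mapping `f` of
the class `c` of `X` onto `X` with `f a = b`. -/
def HomogeneousFor (c : MapClass) (X : Type*) [TopologicalSpace X] : Prop :=
  ∀ a b : X, ∃ f : X → X, Belongs c f ∧ Function.Surjective f ∧ f a = b

/-- `X` and `Y` are equivalent with respect to the class `c`: there are mappings of the class `c`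
of `X` onto `Y` and of `Y` onto `X`. -/
def EquivalentFor (c : MapClass) (X Y : Type*) [TopologicalSpace X] [TopologicalSpace Y] : Prop :=
  (∃ f : X → Y, Belongs c f ∧ Function.Surjective f) ∧
    ∃ g : Y → X, Belongs c g ∧ Function.Surjective g

/-- `X` is homogeneous: for all `a b : X` there is a homeomorphism `h` of `X` onto `X` with
`h a = b`. -/
def Homogeneous (X : Type*) [TopologicalSpace X] : Prop :=
  ∀ a b : X, ∃ h : X ≃ₜ X, h a = b

/-- For each of the three classes there is a continuum `X` (a nonempty compact connected metric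
space) which is homogeneous with respect to the class, but such that no homogeneous continuum `Y`
is equivalent to `X` with respect to the class. -/
theorem result.{u} : ∀ c : MapClass, ∃ (X : Type) (_ : MetricSpace X),
    CompactSpace X ∧ ConnectedSpace X ∧ HomogeneousFor c X ∧
    ∀ (Y : Type u) [MetricSpace Y] [CompactSpace Y] [ConnectedSpace Y],
      Homogeneous Y → ¬ EquivalentFor c X Y := by
  intro c
  cases c with
  | mono =>
    refine ⟨Dend.X, inferInstance, inferInstance, inferInstance, ?_, ?_⟩
    · intro a b
      obtain ⟨f, h1, h2, h3, h4⟩ := Dend.mono_homogeneous a b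
      exact ⟨f, ⟨h1, h2, h3⟩, h2, h4⟩
    · rintro Y _ _ _ hY ⟨⟨f, ⟨hf, hfs, hfm⟩, -⟩, ⟨g, -, hgs⟩⟩
      exact Dend.mono_obstruction hY hf hfs hfm hgs
  | opens =>
    refine ⟨Cont, inferInstance, inferInstance, inferInstance, ?_, ?_⟩
    · intro a b
      obtain ⟨f, h1, h2, h3, h4⟩ := Cont.open_homogeneous a b
      exact ⟨f, ⟨h1, h2⟩, h3, h4⟩
    · rintro Y _ _ _ hY ⟨⟨f, ⟨hf, hfo⟩, hfs⟩, ⟨g, ⟨hg, hgo⟩, hgs⟩⟩
      obtain ⟨x0, -⟩ := exists_pair_ne Cont
      exact open_obstruction (x0 := x0) (Cont.regular x0) Cont.no_two_frontier hY hf hfo hfs hg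
        hgo hgs
  | fin =>
    obtain ⟨X, hX, h1, h2, h3, h4⟩ := FiniteToOne.result.{u}
    refine ⟨X, hX, h1, h2, ?_, ?_⟩
    · intro a b
      obtain ⟨f, hf, hfs, hab⟩ := h3 a b
      exact ⟨f, hf, hfs, hab⟩
    · rintro Y _ _ _ hY ⟨⟨f, hf, hfs⟩, ⟨g, hg, hgs⟩⟩
      exact h4 Y hY ⟨⟨f, hf, hfs⟩, ⟨g, hg, hgs⟩⟩

end Pool.Agent.Results.MP_861931_gt.AllClasses
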