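import Mathlib
import Pool.Agent.Lib.MP_861931_gt.Order
import Pool.Agent.Lib.MP_861931_gt.Graph

/-!
# Open maps

A continuum `X` which is homogeneous with respect to open mappings, although no homogeneous
continuum is equivalent to `X` with respect to open mappings.

The space `X` is the limit of the finite graphs obtained from a graph with two nodes and five edges
by repeatedly replacing every node with a complete multigraph on the set of all edges and nodes.
It is a locally connected continuum in which every point has small neighbourhoods with finite
boundary, and no two points separate it. A homogeneous continuum which is an open image of `X`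
is again locally connected, has a local cut point, and hence (by homogeneity and a countability
argument) small open neighbourhoods with at most two boundary points at each of its points. An open
mapping of it onto `X` would give a nonempty open nondense subset of `X` with at most two boundary
points.
-/

open Set Filter Topology

namespace Pool.Agent.Results.MP_861931_gt.OpenMaps

open Pool.Agent.Lib.MP_861931_gt

/-- `X` is homogeneous with respect to open mappings: for all `a b : X` there is a continuous open
map `f` of `X` onto `X` with `f a = b`. -/
def OpenHomogeneous (X : Type*) [TopologicalSpace X] : Prop :=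
  ∀ a b : X, ∃ f : X → X, Continuous f ∧ IsOpenMap f ∧ Function.Surjective f ∧ f a = b

/-- `X` is homogeneous: for all `a b : X` there is a homeomorphism `h` of `X` onto `X` with
`h a = b`. -/
def Homogeneous (X : Type*) [TopologicalSpace X] : Prop :=
  ∀ a b : X, ∃ h : X ≃ₜ X, h a = b

/-- `X` and `Y` are equivalent with respect to open mappings: there are continuous open maps of `X`
onto `Y` and of `Y` onto `X`. -/
def OpenEquivalent (X Y : Type*) [TopologicalSpace X] [TopologicalSpace Y] : Prop :=
  (∃ f : X → Y, Continuous f ∧ IsOpenMap f ∧ Function.Surjective f) ∧
    ∃ g : Y → X, Continuous g ∧ IsOpenMap g ∧ Function.Surjective g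

/-- There is a continuum `X` (a nonempty compact connected metric space) which is homogeneous with
respect to open mappings, but such that no homogeneous continuum `Y` is equivalent to `X` with
respect to open mappings. -/
theorem result.{u} : ∃ (X : Type) (_ : MetricSpace X), CompactSpace X ∧ ConnectedSpace X ∧
    OpenHomogeneous X ∧
    ∀ (Y : Type u) [MetricSpace Y] [CompactSpace Y] [ConnectedSpace Y],
      Homogeneous Y → ¬ OpenEquivalent X Y := by
  refine ⟨Cont, inferInstance, inferInstance, inferInstance, Cont.open_homogeneous, ?_⟩
  rintro Y _ _ _ hY ⟨⟨f, hf, hfo, hfs⟩, ⟨g, hg, hgo, hgs⟩⟩
  obtain ⟨x0, -⟩ := exists_pair_ne Cont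
  exact open_obstruction (x0 := x0) (Cont.regular x0) Cont.no_two_frontier hY hf hfo hfs hg hgo hgs

end Pool.Agent.Results.MP_861931_gt.OpenMaps
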